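import Pool.Agent.SEP.Final
import Pool.Agent.SEP.Uniq

namespace Pool.Agent.Results.MP_ca000f_co.Disproof

open Pool.Agent.SEP

/-- There is a 2-connected graph `G` on 15 vertices (the complete graph `K_5` with the five edges
of a Hamilton cycle replaced by paths of length three) for which the coefficient of `t^7` in
`Z_G(t)` is `-180`. So the coefficients of `Z_G` are not always nonnegative. -/
theorem result : ∃ G : SimpleGraph (Fin 15), TwoConnected G ∧ (∃ z : ℕ → ℤ, IsZ G z) ∧
    ∀ z : ℕ → ℤ, IsZ G z → z 7 = -180 := by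
  obtain ⟨z, hz, h7⟩ := main
  refine ⟨GG, GG_two, ⟨z, hz⟩, fun z' hz' => ?_⟩
  rw [isZ_unique hz' hz]
  exact h7

end Pool.Agent.Results.MP_ca000f_co.Disproof
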